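import Pool.Agent.Lib.MP_452a87_nt.SGK.All

/-!
# Schneider's conjecture for every `β` and almost every algebraic integer `α` of every number field
-/

set_option autoImplicit false

open NumberField

namespace Pool.Agent.Results.MP_452a87_nt.AlmostAllAlpha

/-- Let `K` be a number field and `φ : K → ℂ` an embedding. For all `D` and `ε > 0` there is `T0` such that for all `T ≥ T0`, all number
fields `F ⊂ ℂ` of degree at most `D` and all `l` with `exp l` algebraic: all but at most a proportion `ε` of the algebraic integers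
`x ∈ K` all of whose conjugates have absolute value at most `T` have the property that for `α = φ(x) exp l`, each of the logarithms
`log α = l + log φ(x) + 2 π i ν`, `|ν| ≤ D`, and every irrational `β ∈ F`, of degree `d`, the numbers `α^β, …, α^(β^(d-1))` are
algebraically independent over `ℚ`. -/
theorem result (K : Type) [Field K] [NumberField K] (φ : K →+* ℂ) (D : ℕ) (ε : ℝ) (hε : 0 < ε) :
    ∃ T0 : ℝ, ∀ T : ℝ, T0 ≤ T → ∀ F : IntermediateField ℚ ℂ, FiniteDimensional ℚ F → Module.finrank ℚ F ≤ D →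
      ∀ l : ℂ, IsAlgebraic ℚ (Complex.exp l) →
        {x : 𝓞 K | ∀ σ : K →+* ℂ, ‖σ (x : K)‖ ≤ T}.Finite ∧
        (Set.ncard {x : 𝓞 K | (∀ σ : K →+* ℂ, ‖σ (x : K)‖ ≤ T) ∧ x ≠ 0 ∧ ∃ ν : ℤ, |ν| ≤ (D : ℤ) ∧
          ¬ ∀ β ∈ F, (∀ q : ℚ, (q : ℂ) ≠ β) →
            AlgebraicIndependent ℚ (fun i : Fin ((minpoly ℚ β).natDegree - 1) =>
              Complex.exp (β ^ ((i : ℕ) + 1) * (l + (Complex.log (φ (x : K)) + 2 * Real.pi * Complex.I * ν))))} : ℝ) ≤
          ε * (Set.ncard {x : 𝓞 K | ∀ σ : K →+* ℂ, ‖σ (x : K)‖ ≤ T} : ℝ) :=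
  Pool.Agent.SGK.All.aKFn K φ D D ε hε

end Pool.Agent.Results.MP_452a87_nt.AlmostAllAlpha
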