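import Pool.Agent.Lib.MP_452a87_nt.SGA.All

/-!
# Schneider's conjecture for every `β`: the exceptional logarithms have bounded dimension
-/

set_option autoImplicit false

namespace Pool.Agent.Results.MP_452a87_nt.BoundedExceptions

/-- Let `F ⊂ ℂ` be a number field of degree `D` and let `L 1, …, L m` be logarithms of algebraic numbers, linearly independent over `ℚ`
(`m` arbitrary). There is `C` such that for all `H ≥ 1` all but at most `C H ^ (6 D² - 1)` of the vectors `n ∈ ℤ^m` with `|n i| ≤ H`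
have the following property: for `L = ∑ n i L i` and every irrational `β ∈ F`, of degree `d`, the numbers `exp (β L), …, exp (β^(d-1) L)`
are algebraically independent over `ℚ`. -/
theorem result (m : ℕ) (F : IntermediateField ℚ ℂ) (hF : FiniteDimensional ℚ F)
    (L : Fin m → ℂ) (hL : LinearIndependent ℚ L) (hLa : ∀ i, IsAlgebraic ℚ (Complex.exp (L i))) :
    ∃ C : ℕ, ∀ H : ℕ, 1 ≤ H →
      Set.ncard {n : Fin m → ℤ | (∀ i, |n i| ≤ (H : ℤ)) ∧ ¬ ∀ β ∈ F, (∀ q : ℚ, (q : ℂ) ≠ β) →
        AlgebraicIndependent ℚ (fun i : Fin ((minpoly ℚ β).natDegree - 1) =>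
          Complex.exp (β ^ ((i : ℕ) + 1) * ∑ k, (n k : ℂ) * L k))} ≤
        C * H ^ (6 * Module.finrank ℚ F ^ 2 - 1) := by
  have hpos : 0 < Module.finrank ℚ F := Module.finrank_pos
  obtain ⟨e, he⟩ : ∃ e, Module.finrank ℚ F = e + 1 := ⟨Module.finrank ℚ F - 1, by omega⟩
  rw [he]
  exact Pool.Agent.SGA.All.aSFn e m F hF he L hL hLa

end Pool.Agent.Results.MP_452a87_nt.BoundedExceptions
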