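import Pool.Agent.Lib.MP_452a87_nt.AllG

/-!
# Schneider's conjecture for 100 percent of the multiquadratic fields, ordered by discriminant

For every `j ≥ 2` and `ε > 0` there is `X0` such that for all `X ≥ X0`, every nonzero algebraic number `α` and every nonzero logarithm `L`
of `α`: among the (finitely many) multiquadratic fields `K ⊆ ℂ` of degree `d = 2 ^ j` (that is, the fields with Galois group
`(ℤ/2) ^ j`) with `|disc K| ≤ X`, at most a proportion `ε` do not have the property that for every `β` with `ℚ(β) = K` the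
numbers `α ^ β, …, α ^ (β ^ (d - 1))` are algebraically independent.
-/

set_option autoImplicit false

namespace Pool.Agent.Results.MP_452a87_nt.DiscriminantOrder

open Pool.Agent.SMQ

theorem result :
    ∀ (j : ℕ) (ε : ℝ), 2 ≤ j → 0 < ε → ∃ X0 : ℕ, ∀ X : ℕ, X0 ≤ X →
      ∀ α L : ℂ, IsAlgebraic ℚ α → Complex.exp L = α → L ≠ 0 →
        ({K : IntermediateField ℚ ℂ | Module.finrank ℚ K = 2 ^ j ∧
          (∃ S : Set ℂ, (∀ x ∈ S, ∃ q : ℚ, x ^ 2 = (q : ℂ)) ∧ K = IntermediateField.adjoin ℚ S) ∧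
          ∃ _ : NumberField K, |NumberField.discr K| ≤ (X : ℤ)}.Finite) ∧
        (Set.ncard {K : IntermediateField ℚ ℂ | Module.finrank ℚ K = 2 ^ j ∧
          (∃ S : Set ℂ, (∀ x ∈ S, ∃ q : ℚ, x ^ 2 = (q : ℂ)) ∧ K = IntermediateField.adjoin ℚ S) ∧
          (∃ _ : NumberField K, |NumberField.discr K| ≤ (X : ℤ)) ∧
          ¬ ∀ β : ℂ, IntermediateField.adjoin ℚ {β} = K →
            AlgebraicIndependent ℚ (fun i : Fin (2 ^ j - 1) => Complex.exp (β ^ ((i : ℕ) + 1) * L))} : ℝ) ≤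
          ε * Set.ncard {K : IntermediateField ℚ ℂ | Module.finrank ℚ K = 2 ^ j ∧
            (∃ S : Set ℂ, (∀ x ∈ S, ∃ q : ℚ, x ^ 2 = (q : ℂ)) ∧ K = IntermediateField.adjoin ℚ S) ∧
            ∃ _ : NumberField K, |NumberField.discr K| ≤ (X : ℤ)} := by
  intro j ε hj hε
  obtain ⟨X0, h⟩ := AllG.aGFn j ε hj hε
  refine ⟨X0, fun X hX α L hα hL hL0 => ?_⟩
  obtain ⟨h1, h2⟩ := h X hX L hL0 (by rw [hL]; exact hα)
  have e1 : {K : IntermediateField ℚ ℂ | Module.finrank ℚ K = 2 ^ j ∧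
          (∃ S : Set ℂ, (∀ x ∈ S, ∃ q : ℚ, x ^ 2 = (q : ℂ)) ∧ K = IntermediateField.adjoin ℚ S) ∧
          ∃ _ : NumberField K, |NumberField.discr K| ≤ (X : ℤ)} = {K : IntermediateField ℚ ℂ | MQ j K ∧ DLe K X} := by
    ext K
    simp only [Set.mem_setOf_eq, MQ, DLe, and_assoc]
  have e2 : {K : IntermediateField ℚ ℂ | Module.finrank ℚ K = 2 ^ j ∧
          (∃ S : Set ℂ, (∀ x ∈ S, ∃ q : ℚ, x ^ 2 = (q : ℂ)) ∧ K = IntermediateField.adjoin ℚ S) ∧
          (∃ _ : NumberField K, |NumberField.discr K| ≤ (X : ℤ)) ∧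
          ¬ ∀ β : ℂ, IntermediateField.adjoin ℚ {β} = K →
            AlgebraicIndependent ℚ (fun i : Fin (2 ^ j - 1) => Complex.exp (β ^ ((i : ℕ) + 1) * L))} =
      {K : IntermediateField ℚ ℂ | MQ j K ∧ DLe K X ∧ BadK (2 ^ j) L K} := by
    ext K
    simp only [Set.mem_setOf_eq, MQ, DLe, and_assoc, BadK]
    constructor
    · rintro ⟨a, b, c, hn⟩
      push Not at hn
      obtain ⟨β, hβ, hn'⟩ := hn
      exact ⟨a, b, c, β, hβ, hn'⟩
    · rintro ⟨a, b, c, β, hβ, hn⟩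
      exact ⟨a, b, c, fun hall => hn (hall β hβ)⟩
  rw [e1, e2]
  exact ⟨h1, h2⟩

end Pool.Agent.Results.MP_452a87_nt.DiscriminantOrder
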