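import Pool.Agent.Lib.MP_452a87_nt.AllE

/-!
# Schneider's conjecture for 100 percent of the multiquadratic fields (natural density)

For every `j` and `ε > 0` there is `X0` such that for all `X ≥ X0`, every nonzero algebraic number `α` and every nonzero logarithm `L`
of `α`, all but at most `ε X ^ j` of the tuples `(a_1, …, a_j)` of integers in `[1, X]` have the property that for all choices of signs and of
square roots `r_i` of `± a_i` the field `K = ℚ(r_1, …, r_j)` has degree `d = 2 ^ j` and for every `β` with `ℚ(β) = K` the numbers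
`α ^ β, …, α ^ (β ^ (d - 1))` are algebraically independent.
-/

set_option autoImplicit false

namespace Pool.Agent.Results.MP_452a87_nt.NaturalDensity

open Pool.Agent.SMQ

private lemma adjoin_eq {j : ℕ} (a : Fin j → ℕ) (r : Fin j → ℂ) (h : ∀ i, r i ^ 2 = (a i : ℂ) ∨ r i ^ 2 = -(a i : ℂ)) :
    ∃ s : Fin j → Bool, IntermediateField.adjoin ℚ (Set.range r) = Ks s a := by
  classical
  have key : ∀ i, ∃ s : Bool, r i = rt s (a i) ∨ r i = -rt s (a i) := by
    intro i
    have hs : (((Real.sqrt (a i : ℝ) : ℝ) : ℂ)) ^ 2 = (a i : ℂ) := by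
      rw [← Complex.ofReal_pow, Real.sq_sqrt (Nat.cast_nonneg _)]
      simp
    rcases h i with h1 | h1
    · refine ⟨false, ?_⟩
      have : r i ^ 2 = (rt false (a i)) ^ 2 := by
        rw [h1, rt]
        simp only [Bool.false_eq_true, if_false, one_mul]
        exact hs.symm
      exact sq_eq_sq_iff_eq_or_eq_neg.mp this
    · refine ⟨true, ?_⟩
      have : r i ^ 2 = (rt true (a i)) ^ 2 := by
        rw [h1, rt]
        simp only [if_true, mul_pow, Complex.I_sq]
        rw [hs]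
        ring
      exact sq_eq_sq_iff_eq_or_eq_neg.mp this
  choose s hs using key
  refine ⟨s, le_antisymm ?_ ?_⟩
  · rw [IntermediateField.adjoin_le_iff]
    rintro _ ⟨i, rfl⟩
    have hm : rt (s i) (a i) ∈ Ks s a := IntermediateField.subset_adjoin _ _ ⟨i, rfl⟩
    rcases hs i with h1 | h1
    · rw [h1]; exact hm
    · rw [h1]; exact neg_mem hm
  · rw [Ks, IntermediateField.adjoin_le_iff]
    rintro _ ⟨i, rfl⟩
    have hm : r i ∈ IntermediateField.adjoin ℚ (Set.range r) := IntermediateField.subset_adjoin _ _ ⟨i, rfl⟩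
    show rt (s i) (a i) ∈ IntermediateField.adjoin ℚ (Set.range r)
    rcases hs i with h1 | h1
    · rw [← h1]; exact hm
    · have : rt (s i) (a i) = -r i := by rw [h1, neg_neg]
      rw [this]; exact neg_mem hm

private lemma box_finite (j X : ℕ) : {a : Fin j → ℕ | ∀ i, 1 ≤ a i ∧ a i ≤ X}.Finite := by
  have : {a : Fin j → ℕ | ∀ i, 1 ≤ a i ∧ a i ≤ X} ⊆ Set.pi Set.univ (fun _ : Fin j => Set.Icc 1 X) := by
    intro a ha i _
    exact ha i
  exact (Set.Finite.pi' fun _ => Set.finite_Icc 1 X).subset (fun a ha i => ha i)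

theorem result :
    ∀ (j : ℕ) (ε : ℝ), 0 < ε → ∃ X0 : ℕ, ∀ X : ℕ, X0 ≤ X → ∀ α L : ℂ, IsAlgebraic ℚ α → Complex.exp L = α → L ≠ 0 →
      (Set.ncard {a : Fin j → ℕ | (∀ i, 1 ≤ a i ∧ a i ≤ X) ∧
        ¬ ∀ r : Fin j → ℂ, (∀ i, r i ^ 2 = (a i : ℂ) ∨ r i ^ 2 = -(a i : ℂ)) →
          Module.finrank ℚ (IntermediateField.adjoin ℚ (Set.range r)) = 2 ^ j ∧
          ∀ β : ℂ, IntermediateField.adjoin ℚ {β} = IntermediateField.adjoin ℚ (Set.range r) →
            AlgebraicIndependent ℚ (fun i : Fin (2 ^ j - 1) => Complex.exp (β ^ ((i : ℕ) + 1) * L))} : ℝ) ≤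
        ε * (X : ℝ) ^ j := by
  intro j ε hε
  obtain ⟨X0, h⟩ := AllE.aEFn j ε hε
  refine ⟨X0, fun X hX α L hα hL hL0 => ?_⟩
  refine le_trans ?_ (h X hX L hL0 (by rw [hL]; exact hα))
  have hsub : {a : Fin j → ℕ | (∀ i, 1 ≤ a i ∧ a i ≤ X) ∧
        ¬ ∀ r : Fin j → ℂ, (∀ i, r i ^ 2 = (a i : ℂ) ∨ r i ^ 2 = -(a i : ℂ)) →
          Module.finrank ℚ (IntermediateField.adjoin ℚ (Set.range r)) = 2 ^ j ∧
          ∀ β : ℂ, IntermediateField.adjoin ℚ {β} = IntermediateField.adjoin ℚ (Set.range r) →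
            AlgebraicIndependent ℚ (fun i : Fin (2 ^ j - 1) => Complex.exp (β ^ ((i : ℕ) + 1) * L))} ⊆
      {a : Fin j → ℕ | (∀ i, 1 ≤ a i ∧ a i ≤ X) ∧
        ¬ ∀ s : Fin j → Bool, Module.finrank ℚ (Ks s a) = 2 ^ j ∧ ¬ BadK (2 ^ j) L (Ks s a)} := by
    rintro a ⟨ha, hn⟩
    refine ⟨ha, fun hall => hn ?_⟩
    intro r hr
    obtain ⟨s, hs⟩ := adjoin_eq a r hr
    rw [hs]
    refine ⟨(hall s).1, fun β hβ => ?_⟩
    by_contra hc
    exact (hall s).2 ⟨β, hβ, hc⟩
  exact_mod_cast Set.ncard_le_ncard hsub ((box_finite j X).subset fun a ha => ha.1)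

end Pool.Agent.Results.MP_452a87_nt.NaturalDensity
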